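import Pool.Agent.Y48.EGB.Swap

/-!
# No finite equivariant Groebner basis for `f = p(s) ^ a p(t) ^ b`, `a ≠ b`

For all `a ≠ b`, `a, b ≥ 1`, and every nonconstant polynomial `p` (for `p = X` this is the monomial
`s ^ a t ^ b`) the kernel of `y_ij ↦ p(x_i) ^ a p(x_j) ^ b` is finitely generated up to symmetry.
One monomial order respecting the increasing maps has no finite equivariant Groebner basis for all
these kernels with `a < b`, and its mirror image has none for all those with `a > b`.
-/

set_option autoImplicit false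

namespace Pool.Agent.Results.MP_72f11f_al.AllUnequalExponents

open MvPolynomial Pool.Agent.H503R3.EGB Pool.Agent.Y48.EGB

/-- the polynomial `p(s) ^ a p(t) ^ b` -/
noncomputable def fp (p : Polynomial ℂ) (a b : ℕ) : MvPolynomial (Fin 2) ℂ :=
  Polynomial.aeval (X 0 : MvPolynomial (Fin 2) ℂ) p ^ a *
    Polynomial.aeval (X 1 : MvPolynomial (Fin 2) ℂ) p ^ b

theorem aeval_fp {p : Polynomial ℂ} (x y : MvPolynomial ℕ ℂ) (a b : ℕ) :
    aeval ![x, y] (fp p a b) = Polynomial.aeval x p ^ a * Polynomial.aeval y p ^ b := by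
  have h : ∀ i : Fin 2, aeval ![x, y] (Polynomial.aeval (X i : MvPolynomial (Fin 2) ℂ) p) =
      Polynomial.aeval (![x, y] i) p := by
    intro i
    rw [← Polynomial.aeval_algHom_apply, aeval_X]
  rw [fp, map_mul, map_pow, map_pow, h, h]
  rfl

theorem ker_fp {p : Polynomial ℂ} (hp : 0 < p.natDegree) (a b : ℕ) :
    kerPhi (fp p a b) = kerPhi (fab a b) := by
  have htr : Transcendental ℂ p := by
    refine Polynomial.transcendental p hp.ne' ?_
    rw [mem_nonZeroDivisors_iff_ne_zero, Ne, Polynomial.leadingCoeff_eq_zero]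
    rintro rfl
    simp at hp
  have hind : AlgebraicIndependent ℂ
      fun i : ℕ => Polynomial.aeval (X i : MvPolynomial ℕ ℂ) p :=
    AlgebraicIndependent.polynomial_aeval_of_transcendental
      (MvPolynomial.algebraicIndependent_X ℕ ℂ) (fun _ => htr)
  have hcomp : ∀ q : R, phi (fp p a b) q =
      aeval (fun i : ℕ => Polynomial.aeval (X i : MvPolynomial ℕ ℂ) p) (phi (fab a b) q) := by
    intro q
    have : phi (fp p a b) =
        (aeval (fun i : ℕ => Polynomial.aeval (X i : MvPolynomial ℕ ℂ) p)).comp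
          (phi (fab a b)) := by
      refine MvPolynomial.algHom_ext fun e => ?_
      rw [AlgHom.comp_apply, phi_X', phi, aeval_X, aeval_fp, map_mul, map_pow, map_pow,
        aeval_X, aeval_X]
      rfl
    exact congrArg (fun g => g q) this
  ext q
  have h1 : q ∈ kerPhi (fp p a b) ↔ phi (fp p a b) q = 0 := Iff.rfl
  have h2 : q ∈ kerPhi (fab a b) ↔ phi (fab a b) q = 0 := Iff.rfl
  rw [h1, h2, hcomp]
  constructor
  · intro h
    exact hind (by rw [h, map_zero])
  · intro h
    rw [h, map_zero]

/-- There are two monomial orders respecting the increasing maps such that, for every nonconstant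
polynomial `p` and all `1 ≤ a < b`: the kernels for `f = p(s) ^ a p(t) ^ b` and for
`f = p(s) ^ b p(t) ^ a` are both finitely generated up to symmetry; the first has no finite
equivariant Groebner basis for the first order, and the second none for the second order. -/
theorem result : ∃ le le' : (Idx →₀ ℕ) → (Idx →₀ ℕ) → Prop,
    IsMonomialOrder le ∧ RespectsInc le ∧ IsMonomialOrder le' ∧ RespectsInc le' ∧
    ∀ p : Polynomial ℂ, 0 < p.natDegree → ∀ a b : ℕ, 1 ≤ a → a < b →
      (FGUpToSymmetry (kerPhi (fp p a b)) ∧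
        ¬ ∃ G : Set R, G.Finite ∧ IsEGB le (kerPhi (fp p a b)) G) ∧
      (FGUpToSymmetry (kerPhi (fp p b a)) ∧
        ¬ ∃ G : Set R, G.Finite ∧ IsEGB le' (kerPhi (fp p b a)) G) := by
  refine ⟨le0, leS le0, isMonomialOrder_le0, respects_le0, isMonomialOrder_leS isMonomialOrder_le0,
    respects_leS respects_le0, ?_⟩
  intro p hp a b ha hab
  rw [ker_fp hp, ker_fp hp]
  refine ⟨⟨fg_lt ha hab, no_finite ha hab⟩, fg_swap (fg_lt ha hab), ?_⟩
  rintro ⟨G, hG, hGE⟩
  exact no_finite ha hab ⟨S '' G, hG.image _, egb_swap hGE⟩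

end Pool.Agent.Results.MP_72f11f_al.AllUnequalExponents
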